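import Pool.Agent.H17.P3.Defs

set_option autoImplicit false

/-!
The matrix statement (P3) of Pool.Agent.H17.P3, after helper44's note 7046 (minimal cylinder).
-/

namespace Pool.Agent.H41.P4

variable {X : Type}

/-- an induced path on four vertices, loops not restricted -/
def P4 (r : X → X → Prop) (a b c d : X) : Prop :=
  r a b ∧ r b c ∧ r c d ∧ ¬ r a c ∧ ¬ r a d ∧ ¬ r b d

def Free (r : X → X → Prop) (D : Finset X) : Prop :=
  ∀ a ∈ D, ∀ b ∈ D, ∀ c ∈ D, ∀ d ∈ D, ¬ P4 r a b c d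

def Mid (r : X → X → Prop) (u v g : X) : Prop :=
  (r g g ↔ ¬ r u u) ∧ (r g u ↔ ¬ r u u) ∧ (r g v ↔ ¬ r u u) ∧
    ∀ y, (r u y ↔ r v y) → (r g y ↔ r u y)

def PairsIn (r : X → X → Prop) (D : Finset X) : Prop :=
  ∀ u ∈ D, ∀ v ∈ D, (r u u ↔ r v v) → (r u v ↔ ¬ r u u) → ∃ g ∈ D, Mid r u v g

def RA (r : X → X → Prop) (D : Finset X) : Prop :=
  D.Nonempty → (∃ x ∈ D, ∀ y ∈ D, ¬ r x y) ∨ (∃ x ∈ D, ∀ y ∈ D, r x y)

def RB (r : X → X → Prop) (D : Finset X) : Prop :=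
  ∀ x ∈ D, (∃ y ∈ D, r x y) →
    ∃ f ∈ D, r f f ∧ r f x ∧ ∀ y ∈ D, ∀ z ∈ D, r f y → r y z → r f z

/-- the part of `D` where `p` holds -/
noncomputable def sel (D : Finset X) (p : X → Prop) : Finset X :=
  @Finset.filter X p (fun x => Classical.propDecidable (p x)) D

theorem mem_sel {D : Finset X} {p : X → Prop} {x : X} : x ∈ sel D p ↔ x ∈ D ∧ p x := by
  unfold sel
  exact @Finset.mem_filter X p (fun x => Classical.propDecidable (p x)) D x

theorem sel_subset (D : Finset X) (p : X → Prop) : sel D p ⊆ D := fun _ h => (mem_sel.1 h).1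

structure Env (r : X → X → Prop) (D : Finset X) : Prop where
  sym : ∀ x y, r x y → r y x
  pairs : PairsIn r D
  a1 : ∀ w ∈ D, (∃ z ∈ D, ¬ r z w) → RA r (sel D fun y => r y w)
  a2 : ∀ b ∈ D, ∀ c ∈ D, (∃ z ∈ D, ¬ r z b) → RA r (sel D fun y => r y b ∧ ¬ r y c)
  b3 : ∀ b ∈ D, (∃ z ∈ D, r z b) → RB r (sel D fun y => ¬ r y b)

theorem pairsIn_filter {r : X → X → Prop} {D : Finset X} (h : PairsIn r D) (p : X → Prop)
    (hp : ∀ u v g, p u → p v → Mid r u v g → p g) : PairsIn r (sel D p) := by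
  intro u hu v hv h1 h2
  rw [mem_sel] at hu hv
  obtain ⟨g, hg, hm⟩ := h u hu.1 v hv.1 h1 h2
  exact ⟨g, mem_sel.2 ⟨hg, hp u v g hu.2 hv.2 hm⟩, hm⟩

theorem mid_r {r : X → X → Prop} {u v g w : X} (hm : Mid r u v g) (hu : r u w) (hv : r v w) :
    r g w := by
  have := hm.2.2.2 w (by tauto)
  tauto

theorem mid_nr {r : X → X → Prop} {u v g w : X} (hm : Mid r u v g) (hu : ¬ r u w)
    (hv : ¬ r v w) : ¬ r g w := by
  have := hm.2.2.2 w (by tauto)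
  tauto

/-- step (1) -/
theorem plus {r : X → X → Prop} {D : Finset X} (E : Env r D) {w : X} (hw : w ∈ D)
    (h0 : ¬ r w w) (hn : ∃ y ∈ D, r y w) :
    ∃ x ∈ D, r x x ∧ r x w ∧ ∀ y ∈ D, r y w → r x y := by
  have hA := E.a1 w hw ⟨w, hw, h0⟩
  obtain ⟨y, hy, hyw⟩ := hn
  rcases hA ⟨y, mem_sel.2 ⟨hy, hyw⟩⟩ with ⟨x, hx, hiso⟩ | ⟨x, hx, hfull⟩
  · exfalso
    rw [mem_sel] at hx
    have hxx : ¬ r x x := hiso x (mem_sel.2 hx)
    have hwx : r w x := E.sym _ _ hx.2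
    obtain ⟨g, hg, hm⟩ := E.pairs w hw x hx.1 (by tauto) (by tauto)
    have hgw : r g w := hm.2.1.2 h0
    have hgx : r g x := hm.2.2.1.2 h0
    exact hiso g (mem_sel.2 ⟨hg, hgw⟩) (E.sym _ _ hgx)
  · have hx' := mem_sel.1 hx
    exact ⟨x, hx'.1, hfull x hx, hx'.2, fun z hz hzw => hfull z (mem_sel.2 ⟨hz, hzw⟩)⟩

/-- step (2) -/
theorem iso {r : X → X → Prop} {D : Finset X} (E : Env r D) {b c : X} (hb : b ∈ D)
    (hc : c ∈ D) (hcc : r c c) (hbc : r b c) (hz : ∃ z ∈ D, ¬ r z b)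
    (ha : ∃ a ∈ D, r a b ∧ ¬ r a c) :
    ∃ a ∈ D, r a b ∧ ¬ r a c ∧ ∀ y ∈ D, r y b → ¬ r y c → ¬ r a y := by
  obtain ⟨a0, ha0, hab0⟩ := ha
  rcases E.a2 b hb c hc hz ⟨a0, mem_sel.2 ⟨ha0, hab0⟩⟩ with
    ⟨x, hx, hiso⟩ | ⟨x, hx, hfull⟩
  · rw [mem_sel] at hx
    exact ⟨x, hx.1, hx.2.1, hx.2.2, fun y hy h1 h2 => hiso y (mem_sel.2 ⟨hy, h1, h2⟩)⟩
  · exfalso
    have hxx := hfull x hx
    have hx' := mem_sel.1 hx
    obtain ⟨g, hg, hm⟩ := E.pairs x hx'.1 c hc (by tauto) (by tauto)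
    have hgb : r g b := mid_r hm hx'.2.1 (E.sym _ _ hbc)
    have hgx : ¬ r g x := fun h => (hm.2.1.1 h) hxx
    have hgc : ¬ r g c := fun h => (hm.2.2.1.1 h) hxx
    exact hgx (E.sym _ _ (hfull g (mem_sel.2 ⟨hg, hgb, hgc⟩)))

/-- steps (3) and (4) -/
theorem core {r : X → X → Prop} {D : Finset X} (E : Env r D) {b : X} (hb : b ∈ D)
    (hbb : r b b)
    (hmax : ∀ c ∈ D, (∀ y ∈ D, r b y → r c y) → ∀ y ∈ D, r c y → r b y)
    {y z : X} (hy : y ∈ D) (hz : z ∈ D) (hby : r b y) (hyz : r y z) (hbz : ¬ r b z) :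
    ∃ a ∈ D, ∃ c ∈ D, ∃ d ∈ D, P4 r a b c d ∧ ¬ r a a ∧ r c c ∧ ¬ r d d ∧
      (∀ t ∈ D, r t b → ¬ r t c → ¬ r a t) ∧ (∀ t ∈ D, r d t → r b t) ∧
      (∀ t ∈ D, r d t → r c t) := by
  have hzb : ¬ r z b := fun h => hbz (E.sym _ _ h)
  -- a vertex c with a loop, adjacent to b and z
  have hc : ∃ c ∈ D, r c c ∧ r c b ∧ r c z := by
    by_cases h : r y y
    · exact ⟨y, hy, h, E.sym _ _ hby, hyz⟩
    · obtain ⟨x, hx, hxx, _, hN⟩ := plus E hy h ⟨b, hb, hby⟩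
      exact ⟨x, hx, hxx, hN b hb hby, hN z hz (E.sym _ _ hyz)⟩
  obtain ⟨c, hc, hcc, hcb, hcz⟩ := hc
  -- an isolated vertex of N(c) - N(b)
  obtain ⟨d', hd', hd'c, hd'b, hd'iso⟩ := iso E hc hb hbb hcb
    (by
      by_contra hcon
      push Not at hcon
      exact hbz (hmax c hc (fun t ht _ => E.sym _ _ (hcon t ht)) z hz hcz))
    ⟨z, hz, E.sym _ _ hcz, hzb⟩
  have hd'0 : ¬ r d' d' := hd'iso d' hd' hd'c hd'b
  obtain ⟨q, hq, hqq, hqd, hqN⟩ := plus E hd' hd'0 ⟨c, hc, E.sym _ _ hd'c⟩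
  have hqc : r q c := hqN c hc (E.sym _ _ hd'c)
  have hqb : r q b := by
    by_contra hcon
    exact hd'iso q hq hqc hcon (E.sym _ _ hqd)
  -- the vertex d
  have hd : ∃ d ∈ D, ¬ r d d ∧ ¬ r d b ∧ (∃ t ∈ D, r d t) ∧ ∀ t ∈ D, r d t → r b t := by
    by_cases hsub : ∀ t ∈ D, r d' t → r b t
    · exact ⟨d', hd', hd'0, hd'b, ⟨c, hc, hd'c⟩, hsub⟩
    · push Not at hsub
      obtain ⟨t, ht, hdt, hbt⟩ := hsub
      have htb : ¬ r t b := fun h => hbt (E.sym _ _ h)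
      obtain ⟨f, hf, hff, hfd, hcl⟩ := E.b3 b hb ⟨b, hb, hbb⟩ d'
        (mem_sel.2 ⟨hd', hd'b⟩) ⟨t, mem_sel.2 ⟨ht, htb⟩, hdt⟩
      have hf' := mem_sel.1 hf
      obtain ⟨g, hg, hm⟩ := E.pairs f hf'.1 b hb (by tauto) (by tauto)
      have hgg : ¬ r g g := fun h => (hm.1.1 h) hff
      have hgf : ¬ r g f := fun h => (hm.2.1.1 h) hff
      have hgb : ¬ r g b := fun h => (hm.2.2.1.1 h) hff
      refine ⟨g, hg, hgg, hgb, ⟨q, hq, ?_⟩, ?_⟩
      · exact mid_r hm (E.sym _ _ (hqN f hf'.1 hfd)) (E.sym _ _ hqb)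
      · intro s hs hgs
        by_contra hbs
        have hsb : ¬ r s b := fun h => hbs (E.sym _ _ h)
        have hfs : r f s := by
          by_contra hfs
          exact mid_nr hm hfs hbs hgs
        exact hgf (E.sym _ _ (hcl s (mem_sel.2 ⟨hs, hsb⟩) g
          (mem_sel.2 ⟨hg, hgb⟩) hfs (E.sym _ _ hgs)))
  obtain ⟨d, hd, hdd, hdb, ⟨t, ht, hdt⟩, hdN⟩ := hd
  obtain ⟨c2, hc2, hcc2, hcd2, hcN⟩ := plus E hd hdd ⟨t, ht, E.sym _ _ hdt⟩
  have hbc2 : r b c2 := hdN c2 hc2 (E.sym _ _ hcd2)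
  have hnot : ∃ a ∈ D, r a b ∧ ¬ r a c2 := by
    by_contra hcon
    push Not at hcon
    exact hdb (E.sym _ _ (hmax c2 hc2 (fun s hs hbs => E.sym _ _ (hcon s hs (E.sym _ _ hbs)))
      d hd hcd2))
  obtain ⟨a, ha, hab, hac, haiso⟩ := iso E hb hc2 hcc2 hbc2 ⟨z, hz, hzb⟩ hnot
  have had : ¬ r a d := fun h => hac (E.sym _ _ (hcN a ha h))
  refine ⟨a, ha, c2, hc2, d, hd, ⟨hab, hbc2, hcd2, hac, had, fun h => hdb (E.sym _ _ h)⟩,
    haiso a ha hab hac, hcc2, hdd, haiso, hdN, fun s hs h => hcN s hs (E.sym _ _ h)⟩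

theorem exists_max {D : Finset X} (r : X → X → Prop) (p : X → Prop) (h : ∃ x ∈ D, p x) :
    ∃ b ∈ D, p b ∧ ∀ c ∈ D, p c → (sel D fun y => r c y).card ≤
      (sel D fun y => r b y).card := by
  obtain ⟨x, hx, hp⟩ := h
  obtain ⟨b, hb, hmax⟩ := (sel D p).exists_max_image
    (fun c => (sel D fun y => r c y).card) ⟨x, mem_sel.2 ⟨hx, hp⟩⟩
  rw [mem_sel] at hb
  exact ⟨b, hb.1, hb.2, fun c hc hpc => hmax c (mem_sel.2 ⟨hc, hpc⟩)⟩

theorem max_sub {D : Finset X} {r : X → X → Prop} {b c : X}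
    (hle : (sel D fun y => r c y).card ≤ (sel D fun y => r b y).card)
    (hs : ∀ y ∈ D, r b y → r c y) : ∀ y ∈ D, r c y → r b y := by
  have hsub : (sel D fun y => r b y) ⊆ (sel D fun y => r c y) := by
    intro y hy
    rw [mem_sel] at hy ⊢
    exact ⟨hy.1, hs y hy.1 hy.2⟩
  have heq := Finset.eq_of_subset_of_card_le hsub hle
  intro y hy hcy
  have : y ∈ sel D fun y => r c y := mem_sel.2 ⟨hy, hcy⟩
  rw [← heq, mem_sel] at this
  exact this.2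

/-- a vertex with inclusion-maximal neighbourhood has a loop -/
theorem max_loop {r : X → X → Prop} {D : Finset X} (E : Env r D) {b : X} (hb : b ∈ D)
    (hn : ∃ y ∈ D, r y b)
    (hmax : ∀ c ∈ D, (∀ y ∈ D, r b y → r c y) → ∀ y ∈ D, r c y → r b y) : r b b := by
  by_contra h
  obtain ⟨x, hx, _, hxb, hN⟩ := plus E hb h hn
  exact h (hmax x hx (fun y hy hby => hN y hy (E.sym _ _ hby)) b hb hxb)

/-- Claim A and its component form, by one induction -/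
theorem AB {r : X → X → Prop} (sym : ∀ x y, r x y → r y x) : ∀ (n : ℕ) (D : Finset X),
    D.card = n → PairsIn r D → Free r D → RA r D ∧ RB r D := by
  intro n
  induction n using Nat.strong_induction_on with
  | _ n ih =>
    intro D hD hP hF
    have sub : ∀ (p : X → Prop), (∃ z ∈ D, ¬ p z) →
        (∀ u v g, p u → p v → Mid r u v g → p g) →
        RA r (sel D p) ∧ RB r (sel D p) := by
      rintro p ⟨z, hz, hpz⟩ hp
      have hlt : (sel D p).card < n := by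
        rw [← hD]
        apply Finset.card_lt_card
        refine ⟨sel_subset _ _, fun h => hpz ?_⟩
        exact (mem_sel.1 (h hz)).2
      refine ih _ hlt (sel D p) rfl (pairsIn_filter hP p hp) ?_
      intro a ha b hb c hc d hd
      exact hF a (mem_sel.1 ha).1 b (mem_sel.1 hb).1 c
        (mem_sel.1 hc).1 d (mem_sel.1 hd).1
    have E : Env r D := by
      refine ⟨sym, hP, ?_, ?_, ?_⟩
      · intro w hw hz
        exact (sub _ hz fun u v g hu hv hm => mid_r hm hu hv).1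
      · rintro b hb c hc ⟨z, hz, hzb⟩
        exact (sub _ ⟨z, hz, fun h => hzb h.1⟩ fun u v g hu hv hm =>
          ⟨mid_r hm hu.1 hv.1, mid_nr hm hu.2 hv.2⟩).1
      · rintro b hb ⟨z, hz, hzb⟩
        exact (sub _ ⟨z, hz, fun h => h hzb⟩ fun u v g hu hv hm => mid_nr hm hu hv).2
    have hB : RB r D := by
      rintro x hx ⟨y0, hy0, hxy0⟩
      obtain ⟨b, hb, hbx, hbmax⟩ := exists_max (D := D) r (fun c => r c x)
        ⟨y0, hy0, sym _ _ hxy0⟩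
      have hmax : ∀ c ∈ D, (∀ y ∈ D, r b y → r c y) → ∀ y ∈ D, r c y → r b y :=
        fun c hc hs => max_sub (hbmax c hc (hs x hx hbx)) hs
      have hbb : r b b := max_loop E hb ⟨x, hx, sym _ _ hbx⟩ hmax
      refine ⟨b, hb, hbb, hbx, ?_⟩
      intro y hy z hz hby hyz
      by_contra hbz
      obtain ⟨a, ha, c, hc, d, hd, h4, _⟩ := core E hb hbb hmax hy hz hby hyz hbz
      exact hF a ha b hb c hc d hd h4
    refine ⟨?_, hB⟩
    rintro ⟨x, hx⟩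
    by_cases hxi : ∀ y ∈ D, ¬ r x y
    · exact Or.inl ⟨x, hx, hxi⟩
    push Not at hxi
    obtain ⟨f, hf, hff, hfx, hcl⟩ := hB x hx hxi
    by_cases hfull : ∀ y ∈ D, r f y
    · exact Or.inr ⟨f, hf, hfull⟩
    push Not at hfull
    obtain ⟨z, hz, hfz⟩ := hfull
    have hG := (sub (fun y => ¬ r y f) ⟨f, hf, fun h => h hff⟩
      fun u v g hu hv hm => mid_nr hm hu hv).1
    rcases hG ⟨z, mem_sel.2 ⟨hz, fun h => hfz (sym _ _ h)⟩⟩ with
      ⟨g, hg, hiso⟩ | ⟨f', hf', hfull'⟩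
    · left
      have hg' := mem_sel.1 hg
      refine ⟨g, hg'.1, fun y hy hgy => ?_⟩
      by_cases hyf : r y f
      · exact hg'.2 (sym _ _ (hcl y hy g hg'.1 (sym _ _ hyf) (sym _ _ hgy)))
      · exact hiso y (mem_sel.2 ⟨hy, hyf⟩) hgy
    · exfalso
      have hf'' := mem_sel.1 hf'
      have hff' := hfull' f' hf'
      obtain ⟨g, hg, hm⟩ := hP f' hf''.1 f hf (by tauto) (by tauto)
      have h1 : ¬ r g f' := fun h => (hm.2.1.1 h) hff'
      have h2 : ¬ r g f := fun h => (hm.2.2.1.1 h) hff'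
      exact h1 (sym _ _ (hfull' g (mem_sel.2 ⟨hg, h2⟩)))

/-- `g` sees one of `a`, `d` and one of `b`, `c` -/
def Bd (r : X → X → Prop) (a b c d g : X) : Prop := (r g a ↔ ¬ r g d) ∧ (r g b ↔ ¬ r g c)

/-- step (5): a minimal set without full vertex -/
theorem minimal_noFull {r : X → X → Prop} (sym : ∀ x y, r x y → r y x) {C : Finset X}
    (hP : PairsIn r C) (hin : ∀ w ∈ C, (∃ z ∈ C, ¬ r z w) → Free r (sel C fun y => r y w))
    (hout : ∀ w ∈ C, (∃ z ∈ C, r z w) → Free r (sel C fun y => ¬ r y w))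
    (hnf : ∀ x ∈ C, ∃ y ∈ C, ¬ r x y) (hnF : ¬ Free r C) :
    ∃ a ∈ C, ∃ b ∈ C, ∃ c ∈ C, ∃ d ∈ C, P4 r a b c d ∧ ¬ r a a ∧ r b b ∧ r c c ∧ ¬ r d d ∧
      ∀ g ∈ C, ¬ Bd r a b c d g := by
  have hnf' : ∀ x ∈ C, ∃ y ∈ C, ¬ r y x := fun x hx => by
    obtain ⟨y, hy, h⟩ := hnf x hx
    exact ⟨y, hy, fun h' => h (sym _ _ h')⟩
  have subFree : ∀ (p q : X → Prop), (∀ y, p y → q y) → Free r (sel C q) →
      Free r (sel C p) := by
    intro p q hpq hF a ha b hb c hc d hd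
    rw [mem_sel] at ha hb hc hd
    exact hF a (mem_sel.2 ⟨ha.1, hpq a ha.2⟩) b (mem_sel.2 ⟨hb.1, hpq b hb.2⟩)
      c (mem_sel.2 ⟨hc.1, hpq c hc.2⟩) d (mem_sel.2 ⟨hd.1, hpq d hd.2⟩)
  have E : Env r C := by
    refine ⟨sym, hP, ?_, ?_, ?_⟩
    · intro w hw hz
      exact (AB sym _ _ rfl (pairsIn_filter hP _ fun u v g hu hv hm => mid_r hm hu hv)
        (hin w hw hz)).1
    · intro b hb c hc hz
      exact (AB sym _ _ rfl (pairsIn_filter hP _ fun u v g hu hv hm =>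
        ⟨mid_r hm hu.1 hv.1, mid_nr hm hu.2 hv.2⟩)
        (subFree _ _ (fun y hy => hy.1) (hin b hb hz))).1
    · intro b hb hz
      exact (AB sym _ _ rfl (pairsIn_filter hP _ fun u v g hu hv hm => mid_nr hm hu hv)
        (hout b hb hz)).2
  -- the path
  have h4 : ∃ a ∈ C, ∃ b ∈ C, ∃ c ∈ C, ∃ d ∈ C, P4 r a b c d := by
    by_contra hcon
    apply hnF
    intro a ha b hb c hc d hd h
    exact hcon ⟨a, ha, b, hb, c, hc, d, hd, h⟩
  obtain ⟨p1, hp1, p2, hp2, p3, hp3, p4, hp4, hp⟩ := h4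
  obtain ⟨b, hb, -, hbmax⟩ := exists_max (D := C) r (fun c => ∃ y ∈ C, r y c)
    ⟨p2, hp2, p1, hp1, hp.1⟩
  have hmax : ∀ c ∈ C, (∀ y ∈ C, r b y → r c y) → ∀ y ∈ C, r c y → r b y := by
    intro c hc hs y hy hcy
    exact max_sub (hbmax c hc ⟨y, hy, sym _ _ hcy⟩) hs y hy hcy
  have hbn : ∃ y ∈ C, r y b := by
    by_contra hcon
    push Not at hcon
    have h1 := hmax p2 hp2 (fun y hy hby => absurd (sym _ _ hby) (hcon y hy)) p1 hp1
      (sym _ _ hp.1)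
    exact hcon p1 hp1 (sym _ _ h1)
  have hbb : r b b := max_loop E hb hbn hmax
  -- N(b) is not closed
  have hcl : ∃ y ∈ C, ∃ z ∈ C, r b y ∧ r y z ∧ ¬ r b z := by
    by_contra hcon
    push Not at hcon
    by_cases h1 : r b p1
    · have h2 : r b p2 := hcon p1 hp1 p2 hp2 h1 hp.1
      have h3 : r b p3 := hcon p2 hp2 p3 hp3 h2 hp.2.1
      have h4 : r b p4 := hcon p3 hp3 p4 hp4 h3 hp.2.2.1
      exact hin b hb (hnf' b hb) p1 (mem_sel.2 ⟨hp1, sym _ _ h1⟩) p2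
        (mem_sel.2 ⟨hp2, sym _ _ h2⟩) p3 (mem_sel.2 ⟨hp3, sym _ _ h3⟩) p4
        (mem_sel.2 ⟨hp4, sym _ _ h4⟩) hp
    · have h2 : ¬ r b p2 := fun h => h1 (hcon p2 hp2 p1 hp1 h (sym _ _ hp.1))
      have h3 : ¬ r b p3 := fun h => h2 (hcon p3 hp3 p2 hp2 h (sym _ _ hp.2.1))
      have h4 : ¬ r b p4 := fun h => h3 (hcon p4 hp4 p3 hp3 h (sym _ _ hp.2.2.1))
      exact hout b hb hbn p1 (mem_sel.2 ⟨hp1, fun h => h1 (sym _ _ h)⟩) p2
        (mem_sel.2 ⟨hp2, fun h => h2 (sym _ _ h)⟩) p3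
        (mem_sel.2 ⟨hp3, fun h => h3 (sym _ _ h)⟩) p4
        (mem_sel.2 ⟨hp4, fun h => h4 (sym _ _ h)⟩) hp
  obtain ⟨y, hy, z, hz, hby, hyz, hbz⟩ := hcl
  obtain ⟨a, ha, c, hc, d, hd, hpath, haa, hcc, hdd, haiso, hdb, hdc⟩ :=
    core E hb hbb hmax hy hz hby hyz hbz
  refine ⟨a, ha, b, hb, c, hc, d, hd, hpath, haa, hbb, hcc, hdd, ?_⟩
  obtain ⟨hab, hbc, hcd, hac, had, hbd⟩ := hpath
  rintro g hg ⟨h1, h2⟩
  by_cases hgd : r g d
  · have hgb : r g b := sym _ _ (hdb g hg (sym _ _ hgd))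
    have hgc : r g c := sym _ _ (hdc g hg (sym _ _ hgd))
    tauto
  have hga : r g a := h1.2 hgd
  by_cases hgb : r g b
  · have hgc : ¬ r g c := h2.1 hgb
    exact haiso g hg hgb hgc (sym _ _ hga)
  have hgc : r g c := by
    by_contra h
    exact hgb (h2.2 h)
  -- the case {a, c}
  obtain ⟨f, hf, hff, hfa, hfcl⟩ := E.b3 d hd ⟨c, hc, hcd⟩ a (mem_sel.2 ⟨ha, had⟩)
    ⟨b, mem_sel.2 ⟨hb, hbd⟩, hab⟩
  have hf' := mem_sel.1 hf
  have hmE : ∀ t ∈ C, ¬ r t d → t ∈ sel C fun y => ¬ r y d :=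
    fun t ht h => mem_sel.2 ⟨ht, h⟩
  have hfb : r f b := hfcl a (hmE a ha had) b (hmE b hb hbd) hfa hab
  have hfg : r f g := hfcl a (hmE a ha had) g (hmE g hg hgd) hfa (sym _ _ hga)
  have hfc : r f c := by
    by_contra h
    exact haiso f hf'.1 hfb h (sym _ _ hfa)
  have hv : ∃ v ∈ C, r d v ∧ ¬ r f v := by
    by_contra hcon
    push Not at hcon
    apply hgb
    apply sym
    refine hmax f hf'.1 (fun t ht hbt => ?_) g hg hfg
    by_cases htd : r t d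
    · exact hcon t ht (sym _ _ htd)
    · exact hfcl b (hmE b hb hbd) t (hmE t ht htd) hfb hbt
  obtain ⟨v, hv, hdv, hfv⟩ := hv
  have hbv : r b v := hdb v hv hdv
  have hcv : r c v := hdc v hv hdv
  refine hin c hc ⟨a, ha, hac⟩ f (mem_sel.2 ⟨hf'.1, hfc⟩) b
    (mem_sel.2 ⟨hb, hbc⟩) v (mem_sel.2 ⟨hv, sym _ _ hcv⟩) d
    (mem_sel.2 ⟨hd, sym _ _ hcd⟩) ?_
  exact ⟨hfb, hbv, sym _ _ hdv, hfv, hf'.2, hbd⟩

/-- closed under agreement with four points -/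
def Conv (r : X → X → Prop) (C : Finset X) : Prop :=
  ∀ a ∈ C, ∀ b ∈ C, ∀ c ∈ C, ∀ d ∈ C, ∀ g,
    (∀ y, (r a y ↔ r b y) → (r a y ↔ r c y) → (r a y ↔ r d y) → (r g y ↔ r a y)) → g ∈ C

theorem compl_p4 {r : X → X → Prop} (sym : ∀ x y, r x y → r y x) {a b c d : X}
    (h : P4 (fun x y => ¬ r x y) a b c d) : P4 r b d a c := by
  obtain ⟨h1, h2, h3, h4, h5, h6⟩ := h
  refine ⟨not_not.1 h6, sym _ _ (not_not.1 h5), not_not.1 h4, fun h => h1 (sym _ _ h), h2,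
    fun h => h3 (sym _ _ h)⟩

theorem p4_compl {r : X → X → Prop} (sym : ∀ x y, r x y → r y x) {a b c d : X}
    (h : P4 r a b c d) : P4 (fun x y => ¬ r x y) b d a c := by
  obtain ⟨h1, h2, h3, h4, h5, h6⟩ := h
  refine ⟨h6, fun h => h5 (sym _ _ h), h4, fun h => h (sym _ _ h1), fun h => h h2,
    fun h => h (sym _ _ h3)⟩

theorem conv_free {r : X → X → Prop} (sym : ∀ x y, r x y → r y x)
    (hpairs : ∀ u v, (r u u ↔ r v v) → (r u v ↔ ¬ r u u) → ∃ g, Mid r u v g)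
    (hsplit : ∀ a b c d, P4 r a b c d → ¬ r a a → r b b → r c c → ¬ r d d →
      ∃ g, Bd r a b c d g ∧
        ∀ y, (r a y ↔ r b y) → (r a y ↔ r c y) → (r a y ↔ r d y) → (r g y ↔ r a y)) :
    ∀ (n : ℕ) (C : Finset X), C.card = n → Conv r C → Free r C := by
  intro n
  induction n using Nat.strong_induction_on with
  | _ n ih =>
    intro C hC hconv
    by_contra hnF
    have hP : PairsIn r C := by
      intro u hu v hv h1 h2
      obtain ⟨g, hm⟩ := hpairs u v h1 h2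
      exact ⟨g, hconv u hu v hv u hu v hv g fun y h _ _ => hm.2.2.2 y h, hm⟩
    have sub : ∀ (p : X → Prop), (∃ z ∈ C, ¬ p z) → Conv r (sel C p) → Free r (sel C p) := by
      rintro p ⟨z, hz, hpz⟩ hp
      refine ih _ ?_ (sel C p) rfl hp
      rw [← hC]
      exact Finset.card_lt_card ⟨sel_subset _ _, fun h => hpz (mem_sel.1 (h hz)).2⟩
    have hin : ∀ w ∈ C, (∃ z ∈ C, ¬ r z w) → Free r (sel C fun y => r y w) := by
      intro w _ hz
      refine sub _ hz ?_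
      intro a ha b hb c hc d hd g hg
      rw [mem_sel] at ha hb hc hd ⊢
      refine ⟨hconv a ha.1 b hb.1 c hc.1 d hd.1 g hg, ?_⟩
      exact (hg w (by simp only [ha.2, hb.2]) (by simp only [ha.2, hc.2])
        (by simp only [ha.2, hd.2])).2 ha.2
    have hout : ∀ w ∈ C, (∃ z ∈ C, r z w) → Free r (sel C fun y => ¬ r y w) := by
      rintro w _ ⟨z, hz, hzw⟩
      refine sub _ ⟨z, hz, fun h => h hzw⟩ ?_
      intro a ha b hb c hc d hd g hg
      rw [mem_sel] at ha hb hc hd ⊢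
      refine ⟨hconv a ha.1 b hb.1 c hc.1 d hd.1 g hg, fun h => ?_⟩
      exact ha.2 ((hg w (by simp only [ha.2, hb.2]) (by simp only [ha.2, hc.2])
        (by simp only [ha.2, hd.2])).1 h)
    by_cases hfull : ∀ x ∈ C, ∃ y ∈ C, ¬ r x y
    · obtain ⟨a, ha, b, hb, c, hc, d, hd, hp, h1, h2, h3, h4, hbad⟩ :=
        minimal_noFull sym hP hin hout hfull hnF
      obtain ⟨g, hg, hag⟩ := hsplit a b c d hp h1 h2 h3 h4
      exact hbad g (hconv a ha b hb c hc d hd g hag) hg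
    · push Not at hfull
      obtain ⟨x, hx, hxf⟩ := hfull
      have hP' : PairsIn (fun x y => ¬ r x y) C := by
        intro u hu v hv h1 h2
        simp only [] at h1 h2
        obtain ⟨g, hg, hm⟩ := hP u hu v hv (by tauto) (by tauto)
        obtain ⟨m1, m2, m3, m4⟩ := hm
        refine ⟨g, hg, by tauto, by tauto, by tauto, fun y hy => ?_⟩
        have := m4 y (by tauto)
        tauto
      have freeC : ∀ (p q : X → Prop), (∀ y, p y → q y) → Free r (sel C q) →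
          Free (fun x y => ¬ r x y) (sel C p) := by
        intro p q hpq hF a ha b hb c hc d hd h
        rw [mem_sel] at ha hb hc hd
        exact hF b (mem_sel.2 ⟨hb.1, hpq b hb.2⟩) d (mem_sel.2 ⟨hd.1, hpq d hd.2⟩) a
          (mem_sel.2 ⟨ha.1, hpq a ha.2⟩) c (mem_sel.2 ⟨hc.1, hpq c hc.2⟩) (compl_p4 sym h)
      obtain ⟨a, ha, b, hb, c, hc, d, hd, hp, h1, h2, h3, h4, hbad⟩ :=
        minimal_noFull (r := fun x y => ¬ r x y) (C := C) (fun x y h h' => h (sym _ _ h')) hP'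
          (by
            rintro w hw ⟨z, hz, hzw⟩
            exact freeC _ _ (fun y hy => hy) (hout w hw ⟨z, hz, not_not.1 hzw⟩))
          (by
            rintro w hw ⟨z, hz, hzw⟩
            exact freeC _ _ (fun y hy => not_not.1 hy) (hin w hw ⟨z, hz, hzw⟩))
          (fun y hy => ⟨x, hx, not_not.2 (sym _ _ (hxf y hy))⟩)
          (by
            intro hF
            apply hnF
            intro a ha b hb c hc d hd h
            exact hF b hb d hd a ha c hc (p4_compl sym h))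
      obtain ⟨g, hg, hag⟩ := hsplit b d a c (compl_p4 sym hp) h2 (not_not.1 h4) (not_not.1 h1) h3
      refine hbad g (hconv b hb d hd a ha c hc g hag) ?_
      obtain ⟨g1, g2⟩ := hg
      constructor
      · show ¬ r g a ↔ ¬ ¬ r g d
        tauto
      · show ¬ r g b ↔ ¬ ¬ r g c
        tauto

theorem z2_eq (a b : ZMod 2) : a = b ↔ (a = 1 ↔ b = 1) := by
  revert a b
  decide

theorem z2_ne (a b : ZMod 2) : a ≠ b ↔ (a = 1 ↔ ¬ b = 1) := by
  revert a b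
  decide

theorem z2_zero (a : ZMod 2) : a = 0 ↔ ¬ a = 1 := by
  revert a
  decide

/-- **(P3)** of Pool.Agent.H17.P3 -/
theorem p3 : Pool.Agent.H17.P3.P3 := by
  intro X _ M hs hP hS a b c d h4
  haveI := Fintype.ofFinite X
  have sym : ∀ x y, M x y = 1 → M y x = 1 := fun x y h => by rw [hs]; exact h
  have key := conv_free (r := fun x y => M x y = 1) sym
    (by
      intro u v h1 h2
      obtain ⟨g, g1, g2, g3, g4⟩ := hP u v ((z2_eq _ _).2 h1) ((z2_ne _ _).2 h2)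
      have g1' := (z2_ne _ _).1 g1
      have g2' := (z2_eq _ _).1 g2
      have g3' := (z2_eq _ _).1 g3
      refine ⟨g, g1', g2'.trans g1', g3'.trans g1', fun y hy => ?_⟩
      exact (z2_eq _ _).1 (g4 y ((z2_eq _ _).2 hy)))
    (by
      rintro a b c d ⟨h1, h2, h3, h4, h5, h6⟩ ha hb hc hd
      obtain ⟨g, ⟨b1, b2⟩, hg⟩ := hS a b c d ⟨h1, h2, h3, (z2_zero _).2 h4, (z2_zero _).2 h5,
        (z2_zero _).2 h6⟩ ((z2_zero _).2 ha) hb hc ((z2_zero _).2 hd)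
      refine ⟨g, ⟨(z2_ne _ _).1 b1, (z2_ne _ _).1 b2⟩, fun y y1 y2 y3 => ?_⟩
      exact (z2_eq _ _).1 (hg y ((z2_eq _ _).2 y1) ((z2_eq _ _).2 y2) ((z2_eq _ _).2 y3)))
    _ Finset.univ rfl (fun _ _ _ _ _ _ _ _ g _ => Finset.mem_univ g)
  exact key a (Finset.mem_univ a) b (Finset.mem_univ b) c (Finset.mem_univ c) d
    (Finset.mem_univ d) ⟨h4.ab, h4.bc, h4.cd, (z2_zero _).1 h4.ac, (z2_zero _).1 h4.ad,
      (z2_zero _).1 h4.bd⟩

end Pool.Agent.H41.P4
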